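import Pool.Agent.H66.XP.TG

/-!
# The masses (helper13, row MSX of xpm_modules)
-/

set_option autoImplicit false

namespace Pool.Agent.H13.XP

open Finset Pool.Agent.H6.NB Pool.Agent.H70.EH Pool.Agent.H78.XQ
open Pool.Agent.H70.OQ (ic)
open Pool.Agent.H66.IQ Pool.Agent.H66.XP

theorem sum_mv (hMUV : Pool.Agent.H70.EH.T_MUV) (q l : ℕ) (b : Bool) :
    ∑ P : (Fin (2 * l) → Bool) → VV q → Bool, ∏ u, mv b q (P u) = 1 := by
  have h0 : ∑ P : (Fin (2 * l) → Bool) → VV q → Bool, ∏ u, mv b q (P u) =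
      ∏ _u : Fin (2 * l) → Bool, ∑ p, mv b q p := by
    rw [Finset.prod_univ_sum, Fintype.piFinset_univ]
  rw [h0, Finset.prod_congr rfl fun u _ => (hMUV b q).2.1, Finset.prod_const_one]

theorem pf_MSX (hMRS : T_MRS) (hSYC : T_SYC) (hMUV : Pool.Agent.H70.EH.T_MUV) : T_MSX := by
  classical
  intro r l q R n hS b K B hK1 hK2
  have hprod : ∀ P : (Fin (2 * l) → Bool) → VV q → Bool, 0 ≤ ∏ u, mv b q (P u) := fun P =>
    prod_nonneg fun u _ => (hMUV b q).1 _
  refine ⟨fun c => ?_, ?_⟩
  · unfold mX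
    split_ifs
    · exact div_nonneg (prod_nonneg fun u _ => (hMUV b q).1 _) (Nat.cast_nonneg _)
    · exact le_rfl
  · obtain ⟨W, hW, hsum, -⟩ := hMRS r l q R n hS b K B (fun _ => 1) hK1 hK2
    have e1 : ∑ c, mX q l R n b K B c = ∑ P : (Fin (2 * l) → Bool) → VV q → Bool,
        (∏ u, mv b q (P u)) * ic (SayC q l b (ov K.1 B.1 P)) := by
      have e2 : ∑ c, mX q l R n b K B c = ∑ c, mX q l R n b K B c * 1 :=
        sum_congr rfl fun c _ => (mul_one _).symm
      rw [e2, hsum]
      refine sum_congr rfl fun P _ => ?_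
      congr 1
      by_cases h : SayC q l b (ov K.1 B.1 P)
      · have h3 : (ws (kp K B) (W (ov K.1 B.1 P))).card ≠ 0 :=
          card_ne_zero.mpr (hW _ h).2.2
        have h4 : wm (kp K B) (W (ov K.1 B.1 P)) (fun _ => (1 : ℝ)) = 1 := by
          unfold wm
          rw [sum_const, nsmul_eq_mul, mul_one]
          exact div_self (Nat.cast_ne_zero.mpr h3)
        rw [h4, mul_one]
      · have h4 : ic (SayC q l b (ov K.1 B.1 P)) = 0 := by
          unfold ic
          rw [if_neg h]
        rw [h4, zero_mul]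
    have e3 : ∀ P : (Fin (2 * l) → Bool) → VV q → Bool,
        (∏ u, mv b q (P u)) * ic (SayC q l b (ov K.1 B.1 P)) =
          (∏ u, mv b q (P u)) -
            (∏ u, mv b q (P u)) * (if SayC q l b (ov K.1 B.1 P) then 0 else 1) := by
      intro P
      unfold ic
      by_cases h : SayC q l b (ov K.1 B.1 P)
      · rw [if_pos h, if_pos h]
        ring
      · rw [if_neg h, if_neg h]
        ring
    have h5 := hSYC r l q R n hS b K.1 B.1 hK1
    have h6 : 0 ≤ ∑ P : (Fin (2 * l) → Bool) → VV q → Bool, (∏ u, mv b q (P u)) *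
        (if SayC q l b (ov K.1 B.1 P) then 0 else 1) := by
      refine sum_nonneg fun P _ => mul_nonneg (hprod P) ?_
      split_ifs <;> norm_num
    rw [e1, sum_congr rfl fun P _ => e3 P, sum_sub_distrib, sum_mv hMUV]
    constructor <;> linarith

end Pool.Agent.H13.XP
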